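import Mathlib

/-!
The roots of a monic polynomial with analytic coefficients form a covering where
the polynomial is separable.
-/

namespace Pool.Agent.H56.PR

open Topology Filter Set Polynomial

noncomputable section

/-- monic polynomials of degree `d`, continuous in `z`, analytic and separable over `U` -/
structure Fam (P : ℂ → ℂ[X]) (d : ℕ) (U : Set ℂ) : Prop where
  pos : 0 < d
  monic : ∀ z, (P z).Monic
  deg : ∀ z, (P z).natDegree = d
  cont : ∀ i, Continuous fun z => (P z).coeff i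
  op : IsOpen U
  an : ∀ i, AnalyticOnNhd ℂ (fun z => (P z).coeff i) U
  sep : ∀ z ∈ U, (P z).Separable

/-- the map whose fibres over `U × {0}` are the roots -/
def Ph (P : ℂ → ℂ[X]) (q : ℂ × ℂ) : ℂ × ℂ := (q.1, (P q.1).eval q.2)

variable {P : ℂ → ℂ[X]} {d : ℕ} {U : Set ℂ}

theorem Fam.eval_eq (h : Fam P d U) (z w : ℂ) :
    (P z).eval w = ∑ i ∈ Finset.range (d + 1), (P z).coeff i * w ^ i := by
  rw [eval_eq_sum_range, h.deg]

theorem Fam.coeff_top (h : Fam P d U) (z : ℂ) : (P z).coeff d = 1 := by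
  have := h.monic z
  rw [Monic, leadingCoeff, h.deg] at this
  exact this

theorem Fam.eval_eq' (h : Fam P d U) (z w : ℂ) :
    (P z).eval w = w ^ d + ∑ i ∈ Finset.range d, (P z).coeff i * w ^ i := by
  rw [h.eval_eq, Finset.sum_range_succ, h.coeff_top, one_mul, add_comm]

theorem Fam.continuous_eval (h : Fam P d U) :
    Continuous fun q : ℂ × ℂ => (P q.1).eval q.2 := by
  simp only [h.eval_eq]
  refine continuous_finsetSum _ fun i _ => ?_
  exact ((h.cont i).comp continuous_fst).mul (continuous_snd.pow i)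

theorem Fam.continuous_Ph (h : Fam P d U) : Continuous (Ph P) :=
  continuous_fst.prodMk h.continuous_eval

theorem Fam.bound (h : Fam P d U) {M N : ℝ} (hM : ∀ z, ‖z‖ ≤ N → ∀ i < d, ‖(P z).coeff i‖ ≤ M)
    (z w : ℂ) (hz : ‖z‖ ≤ N) (hc : ‖(P z).eval w‖ ≤ N) : ‖w‖ ≤ max 1 (N + d * M) := by
  by_contra hcon
  rw [not_le, max_lt_iff] at hcon
  obtain ⟨h1, h2⟩ := hcon
  have hd := h.pos
  have h3 : w ^ d = (P z).eval w - ∑ i ∈ Finset.range d, (P z).coeff i * w ^ i := by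
    rw [h.eval_eq']; ring
  have h4 : ‖w‖ ^ d ≤ N + ∑ i ∈ Finset.range d, ‖(P z).coeff i * w ^ i‖ := by
    rw [← norm_pow, h3]
    refine (norm_sub_le _ _).trans (add_le_add hc (norm_sum_le _ _))
  have h5 : ∑ i ∈ Finset.range d, ‖(P z).coeff i * w ^ i‖
      ≤ ∑ i ∈ Finset.range d, M * ‖w‖ ^ (d - 1) := by
    refine Finset.sum_le_sum fun i hi => ?_
    rw [Finset.mem_range] at hi
    rw [norm_mul, norm_pow]
    have hM0 : 0 ≤ M := (norm_nonneg _).trans (hM z hz i hi)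
    exact mul_le_mul (hM z hz i hi) (pow_le_pow_right₀ h1.le (by omega)) (by positivity) hM0
  rw [Finset.sum_const, Finset.card_range, nsmul_eq_mul] at h5
  have hN : 0 ≤ N := (norm_nonneg _).trans hz
  have h6 : N ≤ N * ‖w‖ ^ (d - 1) := le_mul_of_one_le_right hN (one_le_pow₀ h1.le)
  have h7 : ‖w‖ ^ d = ‖w‖ * ‖w‖ ^ (d - 1) := by
    rw [← pow_succ', Nat.sub_add_cancel hd]
  have h8 : ‖w‖ * ‖w‖ ^ (d - 1) ≤ (N + d * M) * ‖w‖ ^ (d - 1) := by
    rw [← h7]; nlinarith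
  have h9 : 0 < ‖w‖ ^ (d - 1) := by positivity
  exact absurd (le_of_mul_le_mul_right h8 h9) (not_le.2 h2)

theorem Fam.proper (h : Fam P d U) : IsProperMap (Ph P) := by
  rw [isProperMap_iff_isCompact_preimage]
  refine ⟨h.continuous_Ph, fun K hK => ?_⟩
  obtain ⟨N, hN⟩ := hK.isBounded.exists_norm_le
  have hN' : ∀ q ∈ K, ‖q.1‖ ≤ N ∧ ‖q.2‖ ≤ N := fun q hq =>
    ⟨(norm_fst_le q).trans (hN q hq), (norm_snd_le q).trans (hN q hq)⟩
  have hM : ∃ M : ℝ, ∀ z, ‖z‖ ≤ N → ∀ i < d, ‖(P z).coeff i‖ ≤ M := by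
    have : ∀ i, ∃ M : ℝ, ∀ z, ‖z‖ ≤ N → ‖(P z).coeff i‖ ≤ M := by
      intro i
      obtain ⟨M, hM⟩ := (isCompact_closedBall (0 : ℂ) N).exists_bound_of_continuousOn
        (h.cont i).continuousOn
      exact ⟨M, fun z hz => hM z (by simpa using hz)⟩
    choose M hM using this
    refine ⟨∑ i ∈ Finset.range d, |M i|, fun z hz i hi => ?_⟩
    refine (hM i z hz).trans ((le_abs_self _).trans ?_)
    exact Finset.single_le_sum (f := fun i => |M i|) (fun j _ => abs_nonneg _)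
      (Finset.mem_range.2 hi)
  obtain ⟨M, hM⟩ := hM
  refine IsCompact.of_isClosed_subset (isCompact_closedBall (0 : ℂ × ℂ)
    (max N (max 1 (N + d * M)))) (hK.isClosed.preimage h.continuous_Ph) ?_
  intro q hq
  have hq' := hN' _ hq
  rw [mem_closedBall_zero_iff, Prod.norm_def]
  refine max_le_max hq'.1 ?_
  exact h.bound hM q.1 q.2 hq'.1 hq'.2

theorem Fam.analyticAt (h : Fam P d U) {q : ℂ × ℂ} (hq : q.1 ∈ U) :
    AnalyticAt ℂ (fun q : ℂ × ℂ => (P q.1).eval q.2) q := by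
  simp only [h.eval_eq]
  refine Finset.analyticAt_fun_sum _ fun i _ => ?_
  refine AnalyticAt.mul ?_ (analyticAt_snd.pow i)
  exact AnalyticAt.comp (g := fun z => (P z).coeff i) (h.an i q.1 hq) analyticAt_fst

theorem Fam.local_homeo (h : Fam P d U) {q : ℂ × ℂ} (hq : q.1 ∈ U)
    (h0 : (P q.1).eval q.2 = 0) :
    ∃ e : OpenPartialHomeomorph (ℂ × ℂ) (ℂ × ℂ), q ∈ e.source ∧ e = Ph P ∧
      DifferentiableAt ℂ e.symm (e q) := by
  have han := h.analyticAt hq
  have hst := han.hasStrictFDerivAt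
  set L := fderiv ℂ (fun q : ℂ × ℂ => (P q.1).eval q.2) q with hL
  have hB : L (0, 1) = (P q.1).derivative.eval q.2 := by
    have h1 : HasDerivAt (fun w : ℂ => (q.1, w)) ((0 : ℂ), (1 : ℂ)) q.2 :=
      (hasDerivAt_const _ _).prodMk (hasDerivAt_id _)
    have h2 := hst.hasFDerivAt.comp_hasDerivAt_of_eq (f := fun w : ℂ => (q.1, w)) q.2 h1 (by simp)
    exact h2.unique ((P q.1).hasDerivAt q.2)
  have hB0 : L (0, 1) ≠ 0 := by
    rw [hB]
    intro h1
    obtain ⟨a, b, hab⟩ := h.sep _ hq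
    have h2 := congrArg (eval q.2) hab
    simp [h0, h1] at h2
  set B := L (0, 1)
  set A := L (1, 0)
  have hLxy : ∀ v : ℂ × ℂ, L v = v.1 * A + v.2 * B := by
    intro v
    have : v = v.1 • ((1 : ℂ), (0 : ℂ)) + v.2 • ((0 : ℂ), (1 : ℂ)) := by
      ext <;> simp
    conv_lhs => rw [this]
    rw [map_add, map_smul, map_smul, smul_eq_mul, smul_eq_mul]
  let E : (ℂ × ℂ) ≃L[ℂ] (ℂ × ℂ) := ContinuousLinearEquiv.equivOfInverse
    ((ContinuousLinearMap.fst ℂ ℂ ℂ).prod L)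
    ((ContinuousLinearMap.fst ℂ ℂ ℂ).prod
      (B⁻¹ • (ContinuousLinearMap.snd ℂ ℂ ℂ - A • ContinuousLinearMap.fst ℂ ℂ ℂ)))
    (by
      intro v
      ext
      · simp
      · simp [hLxy]; field_simp; ring)
    (by
      intro v
      ext
      · simp
      · simp [hLxy]; field_simp; ring)
  have hst2 : HasStrictFDerivAt (Ph P) (E : (ℂ × ℂ) →L[ℂ] (ℂ × ℂ)) q := by
    have : HasStrictFDerivAt (Ph P) ((ContinuousLinearMap.fst ℂ ℂ ℂ).prod L) q :=
      hasStrictFDerivAt_fst.prodMk hst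
    exact this
  refine ⟨hst2.toOpenPartialHomeomorph (Ph P), hst2.mem_toOpenPartialHomeomorph_source,
    hst2.toOpenPartialHomeomorph_coe, ?_⟩
  have h5 := hst2.to_localInverse
  have h6 := h5.hasFDerivAt.differentiableAt
  exact h6

/-- **The covering of roots.** -/
theorem Fam.covering (h : Fam P d U) :
    IsCoveringMapOn (Ph P) {q | q.1 ∈ U ∧ q.2 = 0} := by
  refine IsClosedMap.isCoveringMapOn_of_isLocalHomeomorphOn h.proper.isClosedMap ?_ ?_
  · rintro ⟨z, c⟩ ⟨hz, hc⟩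
    have h1 : (Ph P) ⁻¹' {(z, c)} ⊆ (fun w => (z, w)) '' {w | w ∈ (P z).roots.toFinset} := by
      rintro ⟨z', w⟩ hw
      rw [mem_preimage, mem_singleton_iff, Ph, Prod.mk.injEq] at hw
      obtain ⟨h2, h3⟩ := hw
      simp only at h2 h3 hc
      subst h2
      refine ⟨w, ?_, rfl⟩
      rw [mem_ofPred_eq, Multiset.mem_toFinset, mem_roots (h.monic z').ne_zero, IsRoot.def, h3, hc]
    exact ((Finset.finite_toSet _).image _).subset h1
  · rintro q ⟨hq, h0⟩
    obtain ⟨e, h1, h2, -⟩ := h.local_homeo (q := q) hq h0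
    exact ⟨e, h1, h2.symm⟩

/-- a continuous root is holomorphic -/
theorem Fam.differentiableAt (h : Fam P d U) {V : Set ℂ} (hV : IsOpen V) (hVU : V ⊆ U)
    {e : ℂ → ℂ} (he : ContinuousOn e V) (h0 : ∀ z ∈ V, (P z).eval (e z) = 0) :
    DifferentiableOn ℂ e V := by
  intro z hz
  refine DifferentiableAt.differentiableWithinAt ?_
  obtain ⟨E, h1, h2, h3⟩ := h.local_homeo (q := (z, e z)) (hVU hz) (h0 z hz)
  have hce : ContinuousAt (fun z => (z, e z)) z :=
    continuousAt_id.prodMk (he.continuousAt (hV.mem_nhds hz))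
  have h4 : ∀ᶠ z' in 𝓝 z, (z', e z') ∈ E.source :=
    hce.eventually (E.open_source.mem_nhds h1)
  have h5 : ∀ᶠ z' in 𝓝 z, e z' = (E.symm (z', 0)).2 := by
    filter_upwards [h4, hV.mem_nhds hz] with z' h6 h7
    have h8 : E (z', e z') = (z', 0) := by
      rw [h2, Ph]; simp [h0 z' h7]
    rw [← h8, E.left_inv h6]
  have h9 : E (z, e z) = (z, 0) := by
    rw [h2, Ph]; simp [h0 z hz]
  rw [h9] at h3
  have h10 : DifferentiableAt ℂ (fun z' : ℂ => (E.symm (z', 0)).2) z := by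
    have h11 : DifferentiableAt ℂ (fun z' : ℂ => (z', (0 : ℂ))) z := by fun_prop
    exact (DifferentiableAt.comp z h3 h11).snd
  exact h10.congr_of_eventuallyEq h5

end

end Pool.Agent.H56.PR
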