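import Pool.Agent.H56.PR.Sim

/-!
Sequence form: a limit root of zero free sections is simple at a good hit.
-/

namespace Pool.Agent.H56.PR

open Topology Filter Set Polynomial Metric

noncomputable section

variable {ι : Type*} {l : Filter ι} {P : ι → ℂ → ℂ[X]} {P' : ℂ → ℂ[X]} {d : ℕ} {ρ r : ℝ}

theorem conv_eval (hrρ : r < ρ) (hP : ∀ᶠ n in l, LFam (P n) d ρ) (hP' : LFam P' d ρ)
    (hconv : ∀ i, TendstoUniformlyOn (fun n z => (P n z).coeff i) (fun z => (P' z).coeff i) l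
      (closedBall 0 r)) {R η : ℝ} (hR : 0 ≤ R) (hη : 0 < η) :
    ∀ᶠ n in l, ∀ z ∈ closedBall (0 : ℂ) r, ∀ w : ℂ, ‖w‖ ≤ R →
      ‖(P n z).eval w - (P' z).eval w‖ ≤ η ∧
      ‖(P n z).derivative.eval w - (P' z).derivative.eval w‖ ≤ η := by
  have hsub : closedBall (0 : ℂ) r ⊆ ball 0 ρ := closedBall_subset_ball hrρ
  set C : ℝ := ∑ i ∈ Finset.range (d + 1), (R ^ i + (i + 1) * R ^ i) with hC
  have hC0 : 0 ≤ C := Finset.sum_nonneg fun i _ => by positivity
  have hε : 0 < η / (C + 1) := by positivity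
  have h1 : ∀ᶠ n in l, ∀ i ∈ Finset.range (d + 2), ∀ z ∈ closedBall (0 : ℂ) r,
      ‖(P n z).coeff i - (P' z).coeff i‖ ≤ η / (C + 1) := by
    rw [Filter.eventually_all_finset]
    intro i _
    filter_upwards [(Metric.tendstoUniformlyOn_iff.1 (hconv i)) _ hε] with n hn z hz
    have := hn z hz
    rw [dist_comm, dist_eq_norm] at this
    exact this.le
  filter_upwards [h1, hP] with n hn hPn z hz w hw
  have hzρ := hsub hz
  have hCη : C * (η / (C + 1)) ≤ η := by
    rw [mul_div_assoc', div_le_iff₀ (by positivity)]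
    nlinarith
  constructor
  · rw [hPn.eval_eq hzρ, hP'.eval_eq hzρ, ← Finset.sum_sub_distrib]
    refine (norm_sum_le _ _).trans (le_trans ?_ hCη)
    rw [hC, Finset.sum_mul]
    refine Finset.sum_le_sum fun i hi => ?_
    have h2 := hn i (Finset.mem_range.2 (by have := Finset.mem_range.1 hi; omega)) z hz
    rw [← sub_mul, norm_mul, norm_pow]
    have h3 : ‖w‖ ^ i ≤ R ^ i := pow_le_pow_left₀ (norm_nonneg _) hw i
    have h4 : 0 ≤ (i + 1) * R ^ i := by positivity
    calc _ ≤ η / (C + 1) * R ^ i := mul_le_mul h2 h3 (by positivity) hε.le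
      _ ≤ (R ^ i + (i + 1) * R ^ i) * (η / (C + 1)) := by nlinarith
  · rw [hPn.deriv_eval_eq hzρ, hP'.deriv_eval_eq hzρ, ← Finset.sum_sub_distrib]
    refine (norm_sum_le _ _).trans (le_trans ?_ hCη)
    rw [hC, Finset.sum_mul, Finset.sum_range_succ]
    refine le_add_of_le_of_nonneg ?_ (by positivity)
    refine Finset.sum_le_sum fun i hi => ?_
    have h2 := hn (i + 1) (Finset.mem_range.2 (by have := Finset.mem_range.1 hi; omega)) z hz
    have h5 : (P n z).coeff (i + 1) * (i + 1) * w ^ i - (P' z).coeff (i + 1) * (i + 1) * w ^ i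
        = ((P n z).coeff (i + 1) - (P' z).coeff (i + 1)) * ((i + 1) * w ^ i) := by ring
    have h6 : ‖((i : ℂ) + 1) * w ^ i‖ ≤ (i + 1) * R ^ i := by
      rw [norm_mul, norm_pow]
      have h7 : ‖(i : ℂ) + 1‖ = i + 1 := by
        rw [← Nat.cast_succ, Complex.norm_natCast]; push_cast; ring
      rw [h7]
      exact mul_le_mul_of_nonneg_left (pow_le_pow_left₀ (norm_nonneg _) hw i) (by positivity)
    rw [h5, norm_mul]
    have h4 : 0 ≤ R ^ i := by positivity
    calc _ ≤ η / (C + 1) * ((i + 1) * R ^ i) := mul_le_mul h2 h6 (norm_nonneg _) hε.le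
      _ ≤ (R ^ i + (i + 1) * R ^ i) * (η / (C + 1)) := by nlinarith

/-- **A limit root is simple at a good hit.** `P n`: the form over the `n`-th curve, with one bad
point `a n → 0`; `(A n : B n)` never is a root of it and tends to the root `g` of the limit on
the circle. Then `g` is a simple root on the whole disc. -/
theorem simple_hit [l.NeBot] (hr : 0 < r) (hrρ : r < ρ)
    (hP : ∀ᶠ n in l, LFam (P n) d ρ) (hP' : LFam P' d ρ)
    {a : ι → ℂ} (hsmall : ∀ᶠ n in l, r + 2 * ‖a n‖ < ρ ∧ ‖a n‖ < r)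
    (hsep : ∀ᶠ n in l, ∀ z ∈ ball (0 : ℂ) ρ, z ≠ a n → (P n z).Separable)
    (hsep' : ∀ z ∈ sphere (0 : ℂ) r, (P' z).Separable)
    (hconv : ∀ i, TendstoUniformlyOn (fun n z => (P n z).coeff i) (fun z => (P' z).coeff i) l
      (closedBall 0 r))
    {A B : ι → ℂ → ℂ} (hA : ∀ᶠ n in l, DifferentiableOn ℂ (A n) (ball 0 ρ))
    (hB : ∀ᶠ n in l, DifferentiableOn ℂ (B n) (ball 0 ρ))
    (hF : ∀ᶠ n in l, ∀ z ∈ ball (0 : ℂ) ρ, hom d (P n z) (A n z) (B n z) ≠ 0)
    {g : ℂ → ℂ} (hg : AnalyticOnNhd ℂ g (closedBall 0 r))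
    (hg0 : ∀ z ∈ closedBall (0 : ℂ) r, (P' z).eval (g z) = 0)
    (hAB : ∀ ε > 0, ∀ᶠ n in l, ∀ z ∈ sphere (0 : ℂ) r,
      B n z ≠ 0 ∧ ‖A n z / B n z - g z‖ ≤ ε) :
    ∀ z ∈ closedBall (0 : ℂ) r, (P' z).derivative.eval (g z) ≠ 0 := by
  have hsub : closedBall (0 : ℂ) r ⊆ ball 0 ρ := closedBall_subset_ball hrρ
  have hsc : sphere (0 : ℂ) r ⊆ closedBall 0 r := sphere_subset_closedBall
  have hgc : ContinuousOn g (closedBall 0 r) := hg.continuousOn
  set κ : ℂ → ℂ := fun z => (P' z).derivative.eval (g z) with hκ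
  have hκc : ContinuousOn κ (closedBall 0 r) :=
    hP'.cont_deriv.comp (f := fun z => (z, g z)) (continuousOn_id.prodMk hgc)
      fun z hz => ⟨hsub hz, mem_univ _⟩
  -- a lower bound on the circle
  have hκ0 : ∀ z ∈ sphere (0 : ℂ) r, κ z ≠ 0 := by
    intro z hz h1
    obtain ⟨u, v, huv⟩ := hsep' z hz
    have h2 := congrArg (eval (g z)) huv
    simp only [eval_add, eval_mul, eval_one, hg0 z (hsc hz), mul_zero, zero_add] at h2
    simp only [hκ] at h1
    rw [h1, mul_zero] at h2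
    exact zero_ne_one h2
  obtain ⟨m, hm, hκm⟩ : ∃ m > 0, ∀ z ∈ sphere (0 : ℂ) r, m ≤ ‖κ z‖ := by
    obtain ⟨z₀, hz₀, hmin⟩ := (isCompact_sphere (0 : ℂ) r).exists_isMinOn
      (NormedSpace.sphere_nonempty.2 hr.le) ((hκc.mono hsc).norm)
    exact ⟨‖κ z₀‖, norm_pos_iff.2 (hκ0 z₀ hz₀), fun z hz => hmin hz⟩
  -- bound for g
  obtain ⟨Mg, hMg⟩ := (isCompact_closedBall (0 : ℂ) r).exists_bound_of_continuousOn hgc
  set R : ℝ := |Mg| + 1 with hRdef
  have hR0 : 0 ≤ R := by positivity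
  have hgR : ∀ z ∈ closedBall (0 : ℂ) r, ‖g z‖ ≤ |Mg| := fun z hz =>
    (hMg z hz).trans (le_abs_self _)
  -- uniform continuity
  obtain ⟨δ, hδ, hδ1, hδu⟩ : ∃ δ > 0, δ ≤ 1 ∧ ∀ z ∈ closedBall (0 : ℂ) r,
      ∀ w ∈ closedBall (g z) δ, ‖(P' z).derivative.eval w - κ z‖ ≤ m / 16 := by
    have hK : IsCompact (closedBall (0 : ℂ) r ×ˢ closedBall (0 : ℂ) R) :=
      (isCompact_closedBall _ _).prod (isCompact_closedBall _ _)
    have hu := hK.uniformContinuousOn_of_continuous
      (hP'.cont_deriv.mono (prod_mono hsub (subset_univ _)))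
    rw [Metric.uniformContinuousOn_iff_le] at hu
    obtain ⟨δ, hδ, hu⟩ := hu (m / 16) (by positivity)
    refine ⟨min δ 1, lt_min hδ one_pos, min_le_right _ _, fun z hz w hw => ?_⟩
    rw [mem_closedBall_iff_norm] at hw
    have h1 := hgR z hz
    have h2 : ‖w‖ ≤ ‖g z‖ + ‖w - g z‖ := by
      have := norm_add_le (g z) (w - g z)
      rwa [add_sub_cancel] at this
    have h3 := hu (z, w) ⟨hz, mem_closedBall_zero_iff.2
      (by have := hw.trans (min_le_right _ _); linarith)⟩ (z, g z) ⟨hz, mem_closedBall_zero_iff.2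
      (by linarith)⟩ (by
        rw [Prod.dist_eq, dist_self, dist_eq_norm]
        exact max_le hδ.le (hw.trans (min_le_left _ _)))
    rw [dist_eq_norm] at h3
    exact h3
  -- choose n
  have hεd : 0 < min (m / 16) (δ ^ d / 2) := by positivity
  obtain ⟨n, hPn, hsepn, hce, hAn, hBn, hFn, hABn, hsm⟩ := (hP.and (hsep.and
    ((conv_eval hrρ hP hP' hconv hR0 hεd).and (hA.and (hB.and (hF.and
      ((hAB δ hδ).and hsmall))))))).exists
  have hder : ∀ z ∈ closedBall (0 : ℂ) r, ∀ w ∈ closedBall (g z) δ,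
      ‖(P n z).derivative.eval w - κ z‖ ≤ m / 8 := by
    intro z hz w hw
    have h1 := hδu z hz w hw
    rw [mem_closedBall_iff_norm] at hw
    have h0 := hgR z hz
    have h2 : ‖w‖ ≤ ‖g z‖ + ‖w - g z‖ := by
      have := norm_add_le (g z) (w - g z)
      rwa [add_sub_cancel] at this
    have h3 := (hce z hz w (by linarith)).2
    have h4 := norm_sub_le_norm_sub_add_norm_sub ((P n z).derivative.eval w)
      ((P' z).derivative.eval w) (κ z)
    have h5 := h3.trans (min_le_left _ _)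
    linarith
  obtain ⟨e, he1, he2, he3⟩ := exists_near (K := sphere (0 : ℂ) r) (P := P n) (d := d) (g := g)
    (κ := κ) (δ := δ) (η := m / 8) (fun z hz => hPn.monic z (hsub (hsc hz)))
    (fun z hz => hPn.deg z (hsub (hsc hz)))
    (hPn.cont_eval.mono (prod_mono (hsc.trans hsub) (subset_univ _))) (hgc.mono hsc)
    (fun z hz => by have := hκm z hz; linarith) (fun z hz => hder z (hsc hz)) hδ le_rfl
    (fun z hz => by
      have h1 := (hce z (hsc hz) (g z) (by have := hgR z (hsc hz); linarith)).1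
      rw [hg0 z (hsc hz), sub_zero] at h1
      have h2 : 0 < δ ^ d := by positivity
      have h3 := h1.trans (min_le_right _ _)
      linarith)
  obtain ⟨E, hE1, hE2, hE3⟩ := hPn.root_ext hr hsm.2 hsm.1 hsepn he1 he2
  have hfr : frontier (ball (0 : ℂ) r) = sphere 0 r := frontier_ball _ hr.ne'
  have hcl : closure (ball (0 : ℂ) r) = closedBall 0 r := closure_ball _ hr.ne'
  have hEg : ∀ z ∈ closedBall (0 : ℂ) r, ‖E z - g z‖ ≤ δ := by
    intro z hz
    refine Complex.norm_le_of_forall_mem_frontier_norm_le isBounded_ball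
      (f := fun z => E z - g z) (DifferentiableOn.diffContOnCl ?_) (C := δ) ?_
      (by rw [hcl]; exact hz)
    · rw [hcl]; exact hE1.differentiableOn.sub hg.differentiableOn
    · intro z hz
      rw [hfr] at hz
      rw [hE2 z hz]
      exact (he3 z hz).le
  have hfin := hPn.lower hr hrρ hm hE1 hE3 hEg hκm hder hAn hBn hFn hABn
  intro z hz h0
  have h1 := hfin z hz
  simp only [hκ] at h1
  rw [h0, norm_zero] at h1
  linarith

end

end Pool.Agent.H56.PR
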