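import Pool.Agent.H56.PR.Cov

/-!
Lifting along convex sets, and the extension of a single valued root over an isolated
point of non-separability.
-/

namespace Pool.Agent.H56.PR

open Topology Filter Set Polynomial Metric

noncomputable section

variable {P : ℂ → ℂ[X]} {d : ℕ} {U : Set ℂ}

theorem Fam.lift_uniq (h : Fam P d U) {A : Type*} [TopologicalSpace A] [SimplyConnectedSpace A]
    [LocallyPathConnectedSpace A] (f : C(A, ℂ)) (hf : ∀ a, f a ∈ U) (a₀ : A) (w₀ : ℂ)
    (h0 : (P (f a₀)).eval w₀ = 0) :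
    ∃! e : C(A, ℂ), e a₀ = w₀ ∧ ∀ a, (P (f a)).eval (e a) = 0 := by
  obtain ⟨F, ⟨hF1, hF2⟩, hF3⟩ := h.covering.existsUnique_continuousMap_lifts
    (⟨fun a => (f a, 0), by fun_prop⟩ : C(A, ℂ × ℂ)) (a₀ := a₀) (e₀ := (f a₀, w₀))
    (by simp [Ph, h0]) (fun a => ⟨hf a, rfl⟩)
  have hF4 : ∀ a, (F a).1 = f a ∧ (P (f a)).eval (F a).2 = 0 := by
    intro a
    have := congrFun hF2 a
    simp only [Function.comp_apply, Ph, ContinuousMap.coe_mk, Prod.mk.injEq] at this
    refine ⟨this.1, ?_⟩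
    rw [← this.1]; exact this.2
  refine ⟨⟨fun a => (F a).2, by fun_prop⟩, ⟨by simp [hF1], fun a => (hF4 a).2⟩, ?_⟩
  rintro e ⟨he1, he2⟩
  have := hF3 ⟨fun a => (f a, e a), by fun_prop⟩ ⟨by simp [he1], by funext a; simp [Ph, he2]⟩
  ext a
  have := congrArg (fun G : C(A, ℂ × ℂ) => (G a).2) this
  simpa using this

section conv

variable {E : Type*} [NormedAddCommGroup E] [NormedSpace ℝ E] {S : Set E}

theorem Fam.exists_on (h : Fam P d U) (hSo : IsOpen S) (hSc : Convex ℝ S) {f : E → ℂ}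
    (hf : ContinuousOn f S) (hfU : MapsTo f S U) {s₀ : E} (hs₀ : s₀ ∈ S) {w₀ : ℂ}
    (hw₀ : (P (f s₀)).eval w₀ = 0) :
    ∃ e : E → ℂ, ContinuousOn e S ∧ e s₀ = w₀ ∧ ∀ s ∈ S, (P (f s)).eval (e s) = 0 := by
  have : ContractibleSpace S := hSc.contractibleSpace ⟨s₀, hs₀⟩
  have : LocallyPathConnectedSpace S := hSo.locallyPathConnectedSpace
  obtain ⟨e, ⟨he1, he2⟩, -⟩ := h.lift_uniq (A := S) ⟨S.domRestrict f, hf.domRestrict⟩
    (fun a => hfU a.2) ⟨s₀, hs₀⟩ w₀ (by simpa using hw₀)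
  classical
  refine ⟨fun s => if hs : s ∈ S then e ⟨s, hs⟩ else 0, ?_, by simp [hs₀, he1], ?_⟩
  · rw [continuousOn_iff_continuous_domRestrict]
    refine e.continuous.congr fun a => ?_
    simp
  · intro s hs
    have := he2 ⟨s, hs⟩
    simpa [hs] using this

theorem Fam.eqOn_on (h : Fam P d U) (hSo : IsOpen S) (hSc : Convex ℝ S) {f : E → ℂ}
    (hf : ContinuousOn f S) (hfU : MapsTo f S U) {e e' : E → ℂ} (he : ContinuousOn e S)
    (he' : ContinuousOn e' S) (hr : ∀ s ∈ S, (P (f s)).eval (e s) = 0)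
    (hr' : ∀ s ∈ S, (P (f s)).eval (e' s) = 0) {s₀ : E} (hs₀ : s₀ ∈ S) (heq : e s₀ = e' s₀) :
    EqOn e e' S := by
  have : ContractibleSpace S := hSc.contractibleSpace ⟨s₀, hs₀⟩
  have : LocallyPathConnectedSpace S := hSo.locallyPathConnectedSpace
  have hu := (h.lift_uniq (A := S) ⟨S.domRestrict f, hf.domRestrict⟩
    (fun a => hfU a.2) ⟨s₀, hs₀⟩ (e s₀) (by simpa using hr s₀ hs₀)).unique
    (y₁ := ⟨S.domRestrict e, he.domRestrict⟩) (y₂ := ⟨S.domRestrict e', he'.domRestrict⟩)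
    ⟨by simp, fun a => by simpa using hr a a.2⟩
    ⟨by simp [heq], fun a => by simpa using hr' a a.2⟩
  intro s hs
  have := congrArg (fun G : C(S, ℂ) => G ⟨s, hs⟩) hu
  simpa using this

end conv

/-- the logarithm along a circle around an interior point -/
def lg (c : ℂ) (r : ℝ) (θ : ℝ) : ℂ :=
  Real.log r + θ * Complex.I + Complex.log (1 + c / r * Complex.exp (-(θ * Complex.I)))

theorem slit {c : ℂ} {r : ℝ} (hc : ‖c‖ < r) (θ : ℝ) :
    1 + c / r * Complex.exp (-(θ * Complex.I)) ∈ Complex.slitPlane := by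
  have hr : 0 < r := (norm_nonneg _).trans_lt hc
  apply Complex.mem_slitPlane_of_norm_lt_one
  rw [norm_mul, norm_div, ← neg_mul, ← Complex.ofReal_neg, Complex.norm_exp_ofReal_mul_I, mul_one,
    Complex.norm_real, Real.norm_eq_abs, abs_of_pos hr, div_lt_one hr]
  exact hc

theorem exp_lg {c : ℂ} {r : ℝ} (hc : ‖c‖ < r) (θ : ℝ) :
    Complex.exp (lg c r θ) = circleMap c r θ := by
  have hr : 0 < r := (norm_nonneg _).trans_lt hc
  rw [lg, Complex.exp_add, Complex.exp_add, Complex.exp_log (Complex.slitPlane_ne_zero (slit hc θ)),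
    ← Complex.ofReal_exp, Real.exp_log hr, circleMap, mul_add, mul_one, add_comm]
  congr 1
  have h1 : (r : ℂ) ≠ 0 := by exact_mod_cast hr.ne'
  have h2 : Complex.exp (θ * Complex.I) * Complex.exp (-(θ * Complex.I)) = 1 := by
    rw [← Complex.exp_add, add_neg_cancel, Complex.exp_zero]
  calc r * Complex.exp (θ * Complex.I) * (c / r * Complex.exp (-(θ * Complex.I)))
      = (r / r) * c * (Complex.exp (θ * Complex.I) * Complex.exp (-(θ * Complex.I))) := by ring
    _ = c := by rw [h2, div_self h1]; ring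

theorem continuous_lg {c : ℂ} {r : ℝ} (hc : ‖c‖ < r) : Continuous (lg c r) := by
  unfold lg
  refine Continuous.add (by fun_prop) ?_
  exact Continuous.clog (by fun_prop) fun θ => slit hc θ

theorem lg_two_pi (c : ℂ) (r : ℝ) :
    lg c r (2 * Real.pi) = lg c r 0 + 2 * Real.pi * Complex.I := by
  have h1 : Complex.exp (-(2 * Real.pi * Complex.I)) = 1 := by
    rw [Complex.exp_neg, Complex.exp_two_pi_mul_I, inv_one]
  unfold lg
  push_cast
  rw [h1]
  simp
  ring

/-- **A single valued root extends over an isolated bad point.** -/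
theorem Fam.root_ext (h : Fam P d U) {ρ : ℝ} (hU : ball 0 ρ \ {0} ⊆ U) {c : ℂ} {r : ℝ}
    (hc : ‖c‖ < r) (hr : ‖c‖ + r < ρ) {e : ℂ → ℂ} (he : ContinuousOn e (sphere c r))
    (h0 : ∀ z ∈ sphere c r, (P z).eval (e z) = 0) :
    ∃ E : ℂ → ℂ, DifferentiableOn ℂ E (ball 0 ρ) ∧ (∀ z ∈ sphere c r, E z = e z) ∧
      ∀ z ∈ ball 0 ρ, (P z).eval (E z) = 0 := by
  have hr0 : 0 < r := (norm_nonneg _).trans_lt hc
  have hρ : 0 < ρ := by have := norm_nonneg c; linarith
  set S : Set ℂ := {ζ | ζ.re < Real.log ρ} with hS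
  have hSo : IsOpen S := isOpen_lt Complex.continuous_re continuous_const
  have hSc : Convex ℝ S := convex_halfSpace_lt Complex.reLm.isLinear _
  have hexp : ∀ ζ ∈ S, Complex.exp ζ ∈ ball (0 : ℂ) ρ \ {0} := by
    intro ζ hζ
    refine ⟨?_, Complex.exp_ne_zero ζ⟩
    rw [mem_ball_zero_iff, Complex.norm_exp]
    calc Real.exp ζ.re < Real.exp (Real.log ρ) := Real.exp_lt_exp.2 hζ
      _ = ρ := Real.exp_log hρ
  have hmS : ∀ ζ, Complex.exp ζ ∈ ball (0 : ℂ) ρ → ζ ∈ S := by
    intro ζ hζ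
    rw [mem_ball_zero_iff, Complex.norm_exp] at hζ
    exact (Real.lt_log_iff_exp_lt hρ).2 hζ
  have hsph : ∀ z ∈ sphere c r, z ∈ ball (0 : ℂ) ρ := by
    intro z hz
    rw [mem_ball_zero_iff]
    have h1 : ‖z‖ ≤ ‖c‖ + ‖z - c‖ := by
      have := norm_add_le c (z - c)
      rwa [add_sub_cancel] at this
    rw [mem_sphere_iff_norm] at hz
    linarith
  have hcir : ∀ θ, circleMap c r θ ∈ sphere c r := fun θ => circleMap_mem_sphere c hr0.le θ
  have hlgS : ∀ θ, lg c r θ ∈ S := fun θ => hmS _ (by rw [exp_lg hc]; exact hsph _ (hcir θ))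
  have hfU : MapsTo Complex.exp S U := fun ζ hζ => hU (hexp ζ hζ)
  obtain ⟨G, hG1, hG2, hG3⟩ := h.exists_on hSo hSc Complex.continuous_exp.continuousOn hfU
    (hlgS 0) (w₀ := e (circleMap c r 0)) (by rw [exp_lg hc]; exact h0 _ (hcir 0))
  -- along the circle
  have hG4 : ∀ θ : ℝ, G (lg c r θ) = e (circleMap c r θ) := by
    have := h.eqOn_on (S := (univ : Set ℝ)) isOpen_univ convex_univ
      (f := circleMap c r) (continuous_circleMap c r).continuousOn
      (fun θ _ => by rw [← exp_lg hc]; exact hfU (hlgS θ))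
      (e := fun θ => G (lg c r θ)) (e' := fun θ => e (circleMap c r θ))
      (hG1.comp (continuous_lg hc).continuousOn fun θ _ => hlgS θ)
      (he.comp (continuous_circleMap c r).continuousOn fun θ _ => hcir θ)
      (fun θ _ => by rw [← exp_lg hc]; exact hG3 _ (hlgS θ))
      (fun θ _ => h0 _ (hcir θ)) (s₀ := 0) (mem_univ _) hG2
    exact fun θ => this (mem_univ θ)
  -- periodicity
  have hper0 : G (lg c r 0 + 2 * Real.pi * Complex.I) = G (lg c r 0) := by
    rw [← lg_two_pi, hG4, hG4]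
    congr 1
    simp [circleMap]
  have hsh : ∀ ζ ∈ S, ζ + 2 * Real.pi * Complex.I ∈ S := by
    intro ζ hζ
    simpa [hS] using hζ
  have hper : ∀ ζ ∈ S, G (ζ + 2 * Real.pi * Complex.I) = G ζ := by
    have hexp2 : ∀ ζ : ℂ, Complex.exp (ζ + 2 * Real.pi * Complex.I) = Complex.exp ζ := fun ζ => by
      rw [Complex.exp_add, Complex.exp_two_pi_mul_I, mul_one]
    have := h.eqOn_on hSo hSc Complex.continuous_exp.continuousOn hfU
      (e := fun ζ => G (ζ + 2 * Real.pi * Complex.I)) (e' := G)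
      (hG1.comp (by fun_prop) hsh) hG1
      (fun ζ hζ => by rw [← hexp2]; exact hG3 _ (hsh ζ hζ)) hG3 (hlgS 0) hper0
    exact fun ζ hζ => this hζ
  have hperN : ∀ (n : ℕ), ∀ ζ ∈ S, G (ζ + n * (2 * Real.pi * Complex.I)) = G ζ := by
    intro n
    induction n with
    | zero => intro ζ _; simp
    | succ n ih =>
      intro ζ hζ
      have h1 : ζ + n * (2 * Real.pi * Complex.I) ∈ S := by simpa [hS] using hζ
      have h2 := hper _ h1
      rw [ih ζ hζ] at h2
      rw [← h2]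
      congr 1
      push_cast
      ring
  have hperZ : ∀ ζ ∈ S, ∀ ζ' ∈ S, Complex.exp ζ = Complex.exp ζ' → G ζ = G ζ' := by
    intro ζ hζ ζ' hζ' hee
    obtain ⟨n, hn⟩ := Complex.exp_eq_exp_iff_exists_int.1 hee
    rcases Int.eq_nat_or_neg n with ⟨m, rfl | rfl⟩
    · rw [hn]
      exact hperN m ζ' hζ'
    · have : ζ' = ζ + m * (2 * Real.pi * Complex.I) := by
        rw [hn]; push_cast; ring
      rw [this]
      exact (hperN m ζ hζ).symm
  -- descend
  set E₀ : ℂ → ℂ := fun z => G (Complex.log z) with hE₀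
  have hE₀eq : ∀ ζ ∈ S, E₀ (Complex.exp ζ) = G ζ := by
    intro ζ hζ
    refine hperZ _ (hmS _ ?_) _ hζ ?_
    · rw [Complex.exp_log (Complex.exp_ne_zero _)]
      exact (hexp ζ hζ).1
    · exact Complex.exp_log (Complex.exp_ne_zero _)
  have hlogS : ∀ z ∈ ball (0 : ℂ) ρ \ {0}, Complex.log z ∈ S := by
    rintro z ⟨hz, hz0⟩
    exact hmS _ (by rw [Complex.exp_log hz0]; exact hz)
  have hE₀root : ∀ z ∈ ball (0 : ℂ) ρ \ {0}, (P z).eval (E₀ z) = 0 := by
    intro z hz
    have := hG3 _ (hlogS z hz)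
    rwa [Complex.exp_log hz.2] at this
  have hopen : IsOpen (ball (0 : ℂ) ρ \ {0}) := isOpen_ball.sdiff isClosed_singleton
  have hE₀cont : ContinuousOn E₀ (ball 0 ρ \ {0}) := by
    intro z₁ hz₁
    refine ContinuousAt.continuousWithinAt ?_
    have hz10 : z₁ ≠ 0 := hz₁.2
    have hB : ContinuousAt (fun z => Complex.log (z / z₁) + Complex.log z₁) z₁ := by
      refine ContinuousAt.add (ContinuousAt.clog (by fun_prop) ?_) continuousAt_const
      rw [div_self hz10]; exact Complex.one_mem_slitPlane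
    have hBv : Complex.log (z₁ / z₁) + Complex.log z₁ = Complex.log z₁ := by
      rw [div_self hz10, Complex.log_one, zero_add]
    have hGc : ContinuousAt G (Complex.log (z₁ / z₁) + Complex.log z₁) := by
      rw [hBv]; exact hG1.continuousAt (hSo.mem_nhds (hlogS z₁ hz₁))
    have hcomp : ContinuousAt (fun z => G (Complex.log (z / z₁) + Complex.log z₁)) z₁ :=
      ContinuousAt.comp (f := fun z => Complex.log (z / z₁) + Complex.log z₁) hGc hB
    refine hcomp.congr ?_
    filter_upwards [hopen.mem_nhds hz₁] with z hz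
    have hz0 : z ≠ 0 := hz.2
    have he1 : Complex.exp (Complex.log (z / z₁) + Complex.log z₁) = z := by
      rw [Complex.exp_add, Complex.exp_log (div_ne_zero hz0 hz10), Complex.exp_log hz10,
        div_mul_cancel₀ _ hz10]
    have hmem : Complex.log (z / z₁) + Complex.log z₁ ∈ S := hmS _ (by rw [he1]; exact hz.1)
    rw [← hE₀eq _ hmem, he1]
  have hE₀diff : DifferentiableOn ℂ E₀ (ball 0 ρ \ {0}) :=
    h.differentiableAt hopen hU hE₀cont hE₀root
  -- bounded near 0
  have hM : ∃ M : ℝ, ∀ z ∈ ball (0 : ℂ) ρ \ {0}, ‖E₀ z‖ ≤ M := by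
    have : ∀ i, ∃ M : ℝ, ∀ z, ‖z‖ ≤ ρ → ‖(P z).coeff i‖ ≤ M := by
      intro i
      obtain ⟨M, hM⟩ := (isCompact_closedBall (0 : ℂ) ρ).exists_bound_of_continuousOn
        (h.cont i).continuousOn
      exact ⟨M, fun z hz => hM z (by simpa using hz)⟩
    choose M hM using this
    refine ⟨max 1 (ρ + d * ∑ i ∈ Finset.range d, |M i|), fun z hz => ?_⟩
    refine h.bound (N := ρ) ?_ z (E₀ z) ?_ ?_
    · intro z hz i hi
      refine (hM i z hz).trans ((le_abs_self _).trans ?_)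
      exact Finset.single_le_sum (f := fun i => |M i|) (fun j _ => abs_nonneg _)
        (Finset.mem_range.2 hi)
    · exact (mem_ball_zero_iff.1 hz.1).le
    · rw [hE₀root z hz, norm_zero]; exact hρ.le
  obtain ⟨M, hM⟩ := hM
  have hE := Complex.differentiableOn_update_limUnder_of_bddAbove
    (isOpen_ball.mem_nhds (mem_ball_self hρ)) hE₀diff
    (⟨M, by rintro _ ⟨z, hz, rfl⟩; exact hM z hz⟩ : BddAbove (norm ∘ E₀ '' (ball 0 ρ \ {0})))
  set E := Function.update E₀ 0 (limUnder (𝓝[≠] 0) E₀) with hEdef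
  have hEeq : ∀ z ≠ 0, E z = E₀ z := fun z hz => Function.update_of_ne hz _ _
  refine ⟨E, hE, ?_, ?_⟩
  · intro z hz
    obtain ⟨θ, rfl⟩ : ∃ θ : ℝ, circleMap c r θ = z := by
      have : z ∈ range (circleMap c r) := by
        rw [range_circleMap, abs_of_pos hr0]; exact hz
      exact this
    have hne : circleMap c r θ ≠ 0 := by rw [← exp_lg hc]; exact Complex.exp_ne_zero _
    rw [hEeq _ hne, ← hG4, ← hE₀eq _ (hlgS θ), exp_lg hc]
  · intro z hz
    by_cases hz0 : z = 0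
    · subst hz0
      have hEc : ContinuousAt E 0 := (hE.differentiableAt
        (isOpen_ball.mem_nhds (mem_ball_self hρ))).continuousAt
      have h1 : ContinuousAt (fun z => (P z).eval (E z)) 0 :=
        (h.continuous_eval.continuousAt (x := ((0 : ℂ), E 0))).comp_of_eq
          (f := fun z => (z, E z)) (continuousAt_id.prodMk hEc) rfl
      have h2 : Tendsto (fun z => (P z).eval (E z)) (𝓝[≠] 0) (𝓝 0) := by
        refine tendsto_const_nhds.congr' ?_
        have h3 : ball (0 : ℂ) ρ ∈ 𝓝[≠] (0 : ℂ) :=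
          mem_nhdsWithin_of_mem_nhds (isOpen_ball.mem_nhds (mem_ball_self hρ))
        filter_upwards [h3, self_mem_nhdsWithin] with z h4 h5
        rw [hEeq z h5, hE₀root z ⟨h4, h5⟩]
      exact tendsto_nhds_unique (h1.tendsto.mono_left nhdsWithin_le_nhds) h2
    · rw [hEeq z hz0]; exact hE₀root z ⟨hz, hz0⟩

end

end Pool.Agent.H56.PR
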