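import Pool.Agent.H56.PR.Lift

/-!
Local form of the extension of roots: everything is only given on a disc.
-/

namespace Pool.Agent.H56.PR

open Topology Filter Set Polynomial Metric

noncomputable section

/-- retraction onto the closed disc of radius `ρ` -/
def retr (ρ : ℝ) (z : ℂ) : ℂ := z / (max 1 (‖z‖ / ρ) : ℝ)

theorem retr_cont {ρ : ℝ} : Continuous (retr ρ) := by
  unfold retr
  refine continuous_id.div (by fun_prop) fun z => ?_
  have : (0 : ℝ) < max 1 (‖z‖ / ρ) := lt_of_lt_of_le one_pos (le_max_left _ _)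
  exact_mod_cast this.ne'

theorem retr_norm {ρ : ℝ} (hρ : 0 < ρ) (z : ℂ) : ‖retr ρ z‖ ≤ ρ := by
  have h1 : (0 : ℝ) < max 1 (‖z‖ / ρ) := lt_of_lt_of_le one_pos (le_max_left _ _)
  rw [retr, norm_div, Complex.norm_real, Real.norm_eq_abs, abs_of_pos h1, div_le_iff₀ h1]
  calc ‖z‖ = ρ * (‖z‖ / ρ) := by field_simp
    _ ≤ ρ * max 1 (‖z‖ / ρ) := by gcongr; exact le_max_right _ _

theorem retr_eq {ρ : ℝ} (hρ : 0 < ρ) {z : ℂ} (hz : ‖z‖ ≤ ρ) : retr ρ z = z := by
  rw [retr, max_eq_left (by rw [div_le_one hρ]; exact hz)]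
  simp

/-- a monic family on a disc -/
structure LFam (P : ℂ → ℂ[X]) (d : ℕ) (ρ : ℝ) : Prop where
  pos : 0 < d
  monic : ∀ z ∈ ball (0 : ℂ) ρ, (P z).Monic
  deg : ∀ z ∈ ball (0 : ℂ) ρ, (P z).natDegree = d
  diff : ∀ i, DifferentiableOn ℂ (fun z => (P z).coeff i) (ball 0 ρ)

variable {P : ℂ → ℂ[X]} {d : ℕ} {ρ : ℝ}

/-- the extension of a single valued root over the only bad point `a` of a disc -/
theorem LFam.root_ext (h : LFam P d ρ) {a : ℂ} {r : ℝ} (hr : 0 < r) (ha : ‖a‖ < r)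
    (har : r + 2 * ‖a‖ < ρ) (hsep : ∀ z ∈ ball (0 : ℂ) ρ, z ≠ a → (P z).Separable)
    {e : ℂ → ℂ} (he : ContinuousOn e (sphere 0 r))
    (h0 : ∀ z ∈ sphere (0 : ℂ) r, (P z).eval (e z) = 0) :
    ∃ E : ℂ → ℂ, AnalyticOnNhd ℂ E (closedBall 0 r) ∧ (∀ z ∈ sphere (0 : ℂ) r, E z = e z) ∧
      ∀ z ∈ closedBall (0 : ℂ) r, (P z).eval (E z) = 0 := by
  -- translate and retract
  obtain ⟨s, hs1, hs2⟩ := exists_between (show r + ‖a‖ < ρ - ‖a‖ by linarith)
  have hs0 : 0 < s := by have := norm_nonneg a; linarith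
  have hmem : ∀ z, ‖retr s z + a‖ < ρ := fun z => by
    have := norm_add_le (retr s z) a
    have := retr_norm hs0 z
    linarith
  set Q : ℂ → ℂ[X] := fun z => P (retr s z + a) with hQ
  have hfam : Fam Q d (ball 0 s \ {0}) := by
    refine ⟨h.pos, fun z => h.monic _ (mem_ball_zero_iff.2 (hmem z)),
      fun z => h.deg _ (mem_ball_zero_iff.2 (hmem z)), fun i => ?_,
      isOpen_ball.sdiff isClosed_singleton, fun i => ?_, fun z hz => ?_⟩
    · have h1 : ContinuousOn (fun z => (P z).coeff i) (ball 0 ρ) := (h.diff i).continuousOn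
      exact h1.comp_continuous (retr_cont.add continuous_const)
        fun z => mem_ball_zero_iff.2 (hmem z)
    · have ho : IsOpen (ball (0 : ℂ) s \ {0}) := isOpen_ball.sdiff isClosed_singleton
      refine DifferentiableOn.analyticOnNhd ?_ ho
      have h2 : DifferentiableOn ℂ (fun z => (P (z + a)).coeff i) (ball 0 s \ {0}) := by
        refine (h.diff i).comp (f := fun z => z + a) (by fun_prop) ?_
        intro z hz
        have h3 := retr_eq hs0 (mem_ball_zero_iff.1 hz.1).le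
        have h4 := hmem z
        rw [h3] at h4
        exact mem_ball_zero_iff.2 h4
      refine h2.congr fun z hz => ?_
      simp only [hQ]
      rw [retr_eq hs0 (mem_ball_zero_iff.1 hz.1).le]
    · have h3 := retr_eq hs0 (mem_ball_zero_iff.1 hz.1).le
      have h4 := hmem z
      simp only [hQ]
      rw [h3] at h4 ⊢
      refine hsep _ (mem_ball_zero_iff.2 h4) fun h5 => hz.2 ?_
      simpa using h5
  have hsph : ∀ z ∈ sphere (-a) r, z + a ∈ sphere (0 : ℂ) r := by
    intro z hz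
    rw [mem_sphere_iff_norm] at hz ⊢
    simpa using hz
  have hrs : ∀ z, ‖z‖ ≤ s → Q z = P (z + a) := fun z hz => by
    simp only [hQ]; rw [retr_eq hs0 hz]
  have hsn : ∀ z ∈ sphere (-a) r, ‖z‖ ≤ s := by
    intro z hz
    have h1 := hsph z hz
    rw [mem_sphere_zero_iff_norm] at h1
    have h2 := norm_sub_le (z + a) a
    rw [add_sub_cancel_right] at h2
    linarith
  obtain ⟨E, hE1, hE2, hE3⟩ := hfam.root_ext (ρ := s) (le_refl _) (c := -a) (r := r)
    (by rwa [norm_neg]) (by rw [norm_neg]; linarith) (e := fun z => e (z + a))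
    (he.comp (by fun_prop) hsph)
    (fun z hz => by rw [hrs z (hsn z hz)]; exact h0 _ (hsph z hz))
  have hcb : ∀ z ∈ closedBall (0 : ℂ) r, z - a ∈ ball (0 : ℂ) s := by
    intro z hz
    rw [mem_closedBall_zero_iff] at hz
    rw [mem_ball_zero_iff]
    have := norm_sub_le z a
    linarith
  refine ⟨fun z => E (z - a), ?_, ?_, ?_⟩
  · intro z hz
    have h1 : AnalyticAt ℂ E (z - a) := hE1.analyticAt (isOpen_ball.mem_nhds (hcb z hz))
    exact AnalyticAt.fun_comp (g := E) (f := fun z => z - a) h1 (by fun_prop)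
  · intro z hz
    have h1 := hE2 (z - a) (by
      rw [mem_sphere_iff_norm]; simpa using hz)
    simpa using h1
  · intro z hz
    have h1 := hE3 (z - a) (hcb z hz)
    rw [hrs _ (mem_ball_zero_iff.1 (hcb z hz)).le] at h1
    simpa using h1

theorem LFam.eval_eq (h : LFam P d ρ) {z : ℂ} (hz : z ∈ ball (0 : ℂ) ρ) (w : ℂ) :
    (P z).eval w = ∑ i ∈ Finset.range (d + 1), (P z).coeff i * w ^ i := by
  rw [eval_eq_sum_range, h.deg z hz]

theorem LFam.deriv_eval_eq (h : LFam P d ρ) {z : ℂ} (hz : z ∈ ball (0 : ℂ) ρ) (w : ℂ) :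
    (P z).derivative.eval w
      = ∑ i ∈ Finset.range d, (P z).coeff (i + 1) * (i + 1) * w ^ i := by
  have h1 : (P z).derivative.natDegree < d := by
    have := natDegree_derivative_lt (p := P z) (by rw [h.deg z hz]; exact h.pos.ne')
    rwa [h.deg z hz] at this
  rw [eval_eq_sum_range' h1]
  refine Finset.sum_congr rfl fun i _ => ?_
  rw [coeff_derivative]

end

end Pool.Agent.H56.PR
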