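import Pool.Agent.H56.PR.Loc

/-!
Roots near an almost root of a monic polynomial, and uniqueness.
-/

namespace Pool.Agent.H56.PR

open Topology Filter Set Polynomial Metric

noncomputable section

theorem near_root {p : ℂ[X]} (hm : p.Monic) {g : ℂ} {δ : ℝ} (hδ : 0 < δ)
    (h : ‖p.eval g‖ < δ ^ p.natDegree) : ∃ w, p.eval w = 0 ∧ ‖w - g‖ < δ := by
  by_contra hcon
  push Not at hcon
  have hs : p.Splits := IsAlgClosed.splits p
  have h1 := hs.eval_eq_prod_roots_of_monic hm g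
  have h2 : p.roots.card = p.natDegree := hs.natDegree_eq_card_roots.symm
  have h3 : ∀ m : Multiset ℂ, (∀ w ∈ m, δ ≤ ‖g - w‖) →
      δ ^ m.card ≤ ‖(m.map fun w => g - w).prod‖ := by
    intro m
    induction m using Multiset.induction_on with
    | empty => simp
    | cons a m ih =>
      intro hm'
      rw [Multiset.card_cons, Multiset.map_cons, Multiset.prod_cons, norm_mul, pow_succ, mul_comm]
      exact mul_le_mul (hm' a (Multiset.mem_cons_self a m))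
        (ih fun w hw => hm' w (Multiset.mem_cons_of_mem hw)) (by positivity) (norm_nonneg _)
  have h4 := h3 p.roots fun w hw => by
    rw [norm_sub_rev]
    exact hcon w (isRoot_of_mem_roots hw)
  rw [h2, ← h1] at h4
  exact absurd h (not_lt.2 h4)

theorem mean_value {p : ℂ[X]} {g κ : ℂ} {δ η : ℝ}
    (h : ∀ w ∈ closedBall g δ, ‖p.derivative.eval w - κ‖ ≤ η) {w₁ w₂ : ℂ}
    (h1 : w₁ ∈ closedBall g δ) (h2 : w₂ ∈ closedBall g δ) :
    ‖p.eval w₂ - p.eval w₁ - κ * (w₂ - w₁)‖ ≤ η * ‖w₂ - w₁‖ := by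
  have h3 := (convex_closedBall g δ).norm_image_sub_le_of_norm_hasDerivWithin_le
    (f := fun w => p.eval w - κ * w) (f' := fun w => p.derivative.eval w - κ) (C := η)
    (fun w _ => by
      have := ((p.hasDerivAt w).sub ((hasDerivAt_id w).const_mul κ)).hasDerivWithinAt
        (s := closedBall g δ)
      rw [mul_one] at this
      exact this) h h1 h2
  have h4 : p.eval w₂ - p.eval w₁ - κ * (w₂ - w₁)
      = (p.eval w₂ - κ * w₂) - (p.eval w₁ - κ * w₁) := by ring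
  rw [h4]
  exact h3

theorem near_unique {p : ℂ[X]} {g κ : ℂ} {δ η : ℝ} (hη : η < ‖κ‖)
    (h : ∀ w ∈ closedBall g δ, ‖p.derivative.eval w - κ‖ ≤ η) {w₁ w₂ : ℂ}
    (h1 : w₁ ∈ closedBall g δ) (h2 : w₂ ∈ closedBall g δ) (he : p.eval w₁ = p.eval w₂) :
    w₁ = w₂ := by
  have h3 := mean_value h h1 h2
  rw [he, sub_self, zero_sub, norm_neg, norm_mul] at h3
  by_contra hne
  have h4 : 0 < ‖w₂ - w₁‖ := norm_pos_iff.2 (sub_ne_zero.2 (Ne.symm hne))
  exact absurd (le_of_mul_le_mul_right h3 h4) (not_le.2 hη)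

/-- nearby roots over a compact set, continuous -/
theorem exists_near {K : Set ℂ} {P : ℂ → ℂ[X]} {d : ℕ} {g κ : ℂ → ℂ} {δ η : ℝ}
    (hm : ∀ z ∈ K, (P z).Monic) (hdeg : ∀ z ∈ K, (P z).natDegree = d)
    (hcont : ContinuousOn (fun q : ℂ × ℂ => (P q.1).eval q.2) (K ×ˢ univ))
    (hg : ContinuousOn g K) (hη : ∀ z ∈ K, η < ‖κ z‖)
    (h : ∀ z ∈ K, ∀ w ∈ closedBall (g z) δ, ‖(P z).derivative.eval w - κ z‖ ≤ η)
    {ε : ℝ} (hε : 0 < ε) (hεδ : ε ≤ δ) (hs : ∀ z ∈ K, ‖(P z).eval (g z)‖ < ε ^ d) :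
    ∃ e : ℂ → ℂ, ContinuousOn e K ∧ (∀ z ∈ K, (P z).eval (e z) = 0) ∧
      ∀ z ∈ K, ‖e z - g z‖ < ε := by
  classical
  have h1 : ∀ z ∈ K, ∃ w, (P z).eval w = 0 ∧ ‖w - g z‖ < ε := fun z hz =>
    near_root (hm z hz) hε (by rw [hdeg z hz]; exact hs z hz)
  choose! e he1 he2 using h1
  refine ⟨e, ?_, he1, he2⟩
  intro z₀ hz₀
  -- cluster points of `e` at `z₀`
  rw [ContinuousWithinAt, tendsto_iff_ultrafilter]
  intro F hF
  have hFK : K ∈ F := hF self_mem_nhdsWithin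
  have hF0 : (F : Filter ℂ) ≤ 𝓝 z₀ := hF.trans nhdsWithin_le_nhds
  have hgF : Tendsto g F (𝓝 (g z₀)) := (hg z₀ hz₀).mono_left hF
  have hb : ∀ᶠ z in F, e z ∈ closedBall (g z₀) (2 * ε + 1) := by
    filter_upwards [hFK, hgF.eventually (ball_mem_nhds (g z₀) one_pos)] with z h2 h3
    rw [mem_closedBall_iff_norm]
    have h4 : ‖e z - g z₀‖ ≤ ‖e z - g z‖ + ‖g z - g z₀‖ := norm_sub_le_norm_sub_add_norm_sub _ _ _
    have h5 := he2 z h2
    rw [dist_eq_norm] at h3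
    linarith
  obtain ⟨w, hw1, hw2⟩ := (isCompact_closedBall (g z₀) (2 * ε + 1)).ultrafilter_le_nhds
    (F.map e) (le_principal_iff.2 hb)
  have hw2' : Tendsto e F (𝓝 w) := hw2
  have hcw : (P z₀).eval w = 0 := by
    have h6 : ContinuousWithinAt (fun q : ℂ × ℂ => (P q.1).eval q.2) (K ×ˢ univ) (z₀, w) :=
      hcont _ ⟨hz₀, mem_univ _⟩
    have h7 : Tendsto (fun z => (z, e z)) F (𝓝[K ×ˢ univ] (z₀, w)) := by
      rw [nhdsWithin, tendsto_inf]
      refine ⟨(show Tendsto id F (𝓝 z₀) from hF0).prodMk_nhds hw2', ?_⟩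
      rw [tendsto_principal]
      filter_upwards [hFK] with z hz
      exact ⟨hz, mem_univ _⟩
    have h8 := h6.tendsto.comp h7
    have h9 : Tendsto (fun z => (P z).eval (e z)) F (𝓝 0) := by
      refine tendsto_const_nhds.congr' ?_
      filter_upwards [hFK] with z hz
      exact (he1 z hz).symm
    exact tendsto_nhds_unique h8 h9
  have hwg : ‖w - g z₀‖ ≤ ε := by
    refine le_of_tendsto ((hw2'.sub hgF).norm) ?_
    filter_upwards [hFK] with z hz
    exact (he2 z hz).le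
  have : w = e z₀ := near_unique (hη z₀ hz₀) (h z₀ hz₀)
    (mem_closedBall_iff_norm.2 (hwg.trans hεδ))
    (mem_closedBall_iff_norm.2 ((he2 z₀ hz₀).le.trans hεδ)) (by rw [hcw, he1 z₀ hz₀])
  rw [← this]
  exact hw2'

end

end Pool.Agent.H56.PR
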