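import Pool.Agent.H56.PR.Near

/-!
A limit of zero free sections is a simple root at a good hit (one variable form).
-/

namespace Pool.Agent.H56.PR

open Topology Filter Set Polynomial Metric

noncomputable section

/-- homogenisation of degree `d` -/
def hom (d : ℕ) (p : ℂ[X]) (a b : ℂ) : ℂ := ∑ i ∈ Finset.range (d + 1), p.coeff i * a ^ i * b ^ (d - i)

theorem hom_eq {d : ℕ} {p : ℂ[X]} (hp : p.natDegree = d) {a b : ℂ} (hb : b ≠ 0) :
    hom d p a b = b ^ d * p.eval (a / b) := by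
  rw [eval_eq_sum_range, hp, hom, Finset.mul_sum]
  refine Finset.sum_congr rfl fun i hi => ?_
  have hi' : i ≤ d := Nat.lt_succ_iff.1 (Finset.mem_range.1 hi)
  have : b ^ d = b ^ i * b ^ (d - i) := by rw [← pow_add, Nat.add_sub_cancel' hi']
  rw [div_pow, this]
  field_simp

theorem hom_zero {d : ℕ} {p : ℂ[X]} (hm : p.Monic) (hp : p.natDegree = d) (a : ℂ) :
    hom d p a 0 = a ^ d := by
  rw [hom, Finset.sum_range_succ, Finset.sum_eq_zero, zero_add]
  · have : p.coeff d = 1 := by rw [← hp]; exact hm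
    simp [this]
  · intro i hi
    have : d - i ≠ 0 := by have := Finset.mem_range.1 hi; omega
    simp [this]

/-- a root gives a linear factor of the homogenisation -/
theorem hom_factor {d : ℕ} {p : ℂ[X]} (hm : p.Monic) (hp : p.natDegree = d) (hd : 0 < d)
    {e a b : ℂ} (he : p.eval e = 0) (h : hom d p a b ≠ 0) : a - e * b ≠ 0 := by
  intro h1
  have ha : a = e * b := sub_eq_zero.1 h1
  by_cases hb : b = 0
  · subst hb
    rw [mul_zero] at ha
    subst ha
    rw [hom_zero hm hp, zero_pow hd.ne'] at h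
    exact h rfl
  · rw [hom_eq hp hb, ha, mul_div_cancel_right₀ _ hb, he, mul_zero] at h
    exact h rfl

variable {P : ℂ → ℂ[X]} {d : ℕ} {ρ : ℝ}

theorem LFam.cont_eval (h : LFam P d ρ) :
    ContinuousOn (fun q : ℂ × ℂ => (P q.1).eval q.2) (ball 0 ρ ×ˢ univ) := by
  have h1 : ContinuousOn (fun q : ℂ × ℂ => ∑ i ∈ Finset.range (d + 1), (P q.1).coeff i * q.2 ^ i)
      (ball 0 ρ ×ˢ univ) := by
    refine continuousOn_finsetSum _ fun i _ => ?_
    exact ((h.diff i).continuousOn.comp continuousOn_fst fun q hq => hq.1).mul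
      (continuousOn_snd.pow i)
  refine h1.congr fun q hq => ?_
  exact h.eval_eq hq.1 q.2

theorem LFam.cont_deriv (h : LFam P d ρ) :
    ContinuousOn (fun q : ℂ × ℂ => (P q.1).derivative.eval q.2) (ball 0 ρ ×ˢ univ) := by
  have h1 : ContinuousOn (fun q : ℂ × ℂ => ∑ i ∈ Finset.range d,
      (P q.1).coeff (i + 1) * (i + 1) * q.2 ^ i) (ball 0 ρ ×ˢ univ) := by
    refine continuousOn_finsetSum _ fun i _ => ?_
    exact (((h.diff (i + 1)).continuousOn.comp continuousOn_fst fun q hq => hq.1).mul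
      continuousOn_const).mul (continuousOn_snd.pow i)
  refine h1.congr fun q hq => ?_
  exact h.deriv_eval_eq hq.1 q.2

theorem LFam.diff_deriv (h : LFam P d ρ) {E : ℂ → ℂ} {s : Set ℂ} (hs : s ⊆ ball 0 ρ)
    (hE : DifferentiableOn ℂ E s) :
    DifferentiableOn ℂ (fun z => (P z).derivative.eval (E z)) s := by
  have h1 : DifferentiableOn ℂ (fun z => ∑ i ∈ Finset.range d,
      (P z).coeff (i + 1) * (i + 1) * E z ^ i) s := by
    refine DifferentiableOn.fun_sum fun i _ => ?_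
    exact (((h.diff (i + 1)).mono hs).mul (differentiableOn_const _)).mul (hE.pow i)
  exact h1.congr fun z hz => h.deriv_eval_eq (hs hz) (E z)

theorem LFam.diff_hom (h : LFam P d ρ) {A B : ℂ → ℂ} {s : Set ℂ} (hs : s ⊆ ball 0 ρ)
    (hA : DifferentiableOn ℂ A s) (hB : DifferentiableOn ℂ B s) :
    DifferentiableOn ℂ (fun z => hom d (P z) (A z) (B z)) s := by
  unfold hom
  refine DifferentiableOn.fun_sum fun i _ => ?_
  exact (((h.diff i).mono hs).mul (hA.pow i)).mul (hB.pow (d - i))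

/-- **one approximating family**: if `w = A/B` and the root `E` of `P` are near the root on the
circle, and `hom P A B` has no zero, then `P' (E)` is bounded below in the disc. -/
theorem LFam.lower (h : LFam P d ρ) {r m δ : ℝ} (hr : 0 < r) (hrρ : r < ρ) (hm : 0 < m)
    {g κ E A B : ℂ → ℂ}
    (hE : AnalyticOnNhd ℂ E (closedBall 0 r))
    (hE0 : ∀ z ∈ closedBall (0 : ℂ) r, (P z).eval (E z) = 0)
    (hEg : ∀ z ∈ closedBall (0 : ℂ) r, ‖E z - g z‖ ≤ δ)
    (hκm : ∀ z ∈ sphere (0 : ℂ) r, m ≤ ‖κ z‖)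
    (hder : ∀ z ∈ closedBall (0 : ℂ) r, ∀ w ∈ closedBall (g z) δ,
      ‖(P z).derivative.eval w - κ z‖ ≤ m / 8)
    (hA : DifferentiableOn ℂ A (ball 0 ρ)) (hB : DifferentiableOn ℂ B (ball 0 ρ))
    (hF : ∀ z ∈ ball (0 : ℂ) ρ, hom d (P z) (A z) (B z) ≠ 0)
    (hAB : ∀ z ∈ sphere (0 : ℂ) r, B z ≠ 0 ∧ ‖A z / B z - g z‖ ≤ δ) :
    ∀ z ∈ closedBall (0 : ℂ) r, m / 2 ≤ ‖κ z‖ := by
  have hsub : closedBall (0 : ℂ) r ⊆ ball 0 ρ := closedBall_subset_ball hrρ
  have hsc : sphere (0 : ℂ) r ⊆ closedBall 0 r := sphere_subset_closedBall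
  have hEd : DifferentiableOn ℂ E (closedBall 0 r) := hE.differentiableOn
  set κ' : ℂ → ℂ := fun z => (P z).derivative.eval (E z) with hκ'
  have hκ'd : DifferentiableOn ℂ κ' (closedBall 0 r) := h.diff_deriv hsub hEd
  have hκκ : ∀ z ∈ closedBall (0 : ℂ) r, ‖κ' z - κ z‖ ≤ m / 8 := fun z hz =>
    hder z hz _ (mem_closedBall_iff_norm.2 (hEg z hz))
  have hκ'm : ∀ z ∈ sphere (0 : ℂ) r, 7 / 8 * m ≤ ‖κ' z‖ := by
    intro z hz
    have h1 := hκκ z (hsc hz)
    have h2 := hκm z hz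
    have h3 : ‖κ z‖ ≤ ‖κ' z‖ + ‖κ' z - κ z‖ := by
      have := norm_sub_le (κ' z) (κ' z - κ z)
      rwa [sub_sub_cancel] at this
    linarith
  set G : ℂ → ℂ := fun z => κ' z * (A z - E z * B z) * B z ^ (d - 1) / hom d (P z) (A z) (B z)
    with hG
  have hGd : DifferentiableOn ℂ G (closedBall 0 r) := by
    refine DifferentiableOn.div ?_ (h.diff_hom hsub (hA.mono hsub) (hB.mono hsub))
      fun z hz => hF z (hsub hz)
    exact (hκ'd.mul ((hA.mono hsub).sub (hEd.mul (hB.mono hsub)))).mul ((hB.mono hsub).pow _)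
  have hfr : frontier (ball (0 : ℂ) r) = sphere 0 r := frontier_ball _ hr.ne'
  have hcl : closure (ball (0 : ℂ) r) = closedBall 0 r := closure_ball _ hr.ne'
  have hDC : ∀ f : ℂ → ℂ, DifferentiableOn ℂ f (closedBall 0 r) →
      DiffContOnCl ℂ f (ball 0 r) := fun f hf =>
    DifferentiableOn.diffContOnCl (by rw [hcl]; exact hf)
  -- on the circle
  have hGs : ∀ z ∈ sphere (0 : ℂ) r, ‖G z - 1‖ ≤ 2 / 5 := by
    intro z hz
    obtain ⟨hB0, hw⟩ := hAB z hz
    set w := A z / B z with hwdef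
    have hz' := hsc hz
    have hne := hF z (hsub hz')
    have hh : hom d (P z) (A z) (B z) = B z ^ d * (P z).eval w :=
      hom_eq (h.deg z (hsub hz')) hB0
    have hPw : (P z).eval w ≠ 0 := by
      intro h0; rw [hh, h0, mul_zero] at hne; exact hne rfl
    have hAw : A z = w * B z := by rw [hwdef, div_mul_cancel₀ _ hB0]
    have hBd : B z ^ d = B z * B z ^ (d - 1) := by
      rw [← pow_succ', Nat.sub_add_cancel h.pos]
    have hGz : G z = κ' z * (w - E z) / (P z).eval w := by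
      simp only [hG]
      rw [hh, hAw, hBd]
      have : B z ^ (d - 1) ≠ 0 := pow_ne_zero _ hB0
      field_simp
    have h1 := mean_value (hder z hz') (mem_closedBall_iff_norm.2 (hEg z hz'))
      (mem_closedBall_iff_norm.2 hw)
    rw [hE0 z hz', sub_zero] at h1
    have h2 : ‖(P z).eval w - κ' z * (w - E z)‖ ≤ m / 4 * ‖w - E z‖ := by
      have h3 : (P z).eval w - κ' z * (w - E z)
          = ((P z).eval w - κ z * (w - E z)) - (κ' z - κ z) * (w - E z) := by ring
      rw [h3]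
      refine (norm_sub_le _ _).trans ?_
      rw [norm_mul]
      have := mul_le_mul_of_nonneg_right (hκκ z hz') (norm_nonneg (w - E z))
      linarith
    have h4 : 5 / 8 * m * ‖w - E z‖ ≤ ‖(P z).eval w‖ := by
      have h5 : ‖κ' z * (w - E z)‖ ≤ ‖(P z).eval w‖ + ‖(P z).eval w - κ' z * (w - E z)‖ := by
        have := norm_sub_le ((P z).eval w) ((P z).eval w - κ' z * (w - E z))
        rwa [sub_sub_cancel] at this
      rw [norm_mul] at h5
      have h6 := mul_le_mul_of_nonneg_right (hκ'm z hz) (norm_nonneg (w - E z))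
      linarith
    have h7 : G z - 1 = -((P z).eval w - κ' z * (w - E z)) / (P z).eval w := by
      rw [hGz]; field_simp; ring
    rw [h7, norm_div, norm_neg, div_le_iff₀ (norm_pos_iff.2 hPw)]
    nlinarith
  have hGb : ∀ z ∈ closedBall (0 : ℂ) r, ‖G z - 1‖ ≤ 2 / 5 := by
    intro z hz
    refine Complex.norm_le_of_forall_mem_frontier_norm_le isBounded_ball
      (hDC (fun z => G z - 1) (hGd.sub (differentiableOn_const _))) (C := 2 / 5) ?_
      (by rw [hcl]; exact hz)
    intro z hz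
    rw [hfr] at hz
    exact hGs z hz
  have hκ'0 : ∀ z ∈ closedBall (0 : ℂ) r, κ' z ≠ 0 := by
    intro z hz h0
    have h1 := hGb z hz
    have h2 : G z = 0 := by simp only [hG, h0]; simp
    rw [h2, zero_sub, norm_neg, norm_one] at h1
    norm_num at h1
  have hinv : ∀ z ∈ closedBall (0 : ℂ) r, ‖(κ' z)⁻¹‖ ≤ (7 / 8 * m)⁻¹ := by
    intro z hz
    refine Complex.norm_le_of_forall_mem_frontier_norm_le isBounded_ball
      (hDC (fun z => (κ' z)⁻¹) (hκ'd.inv hκ'0)) (C := (7 / 8 * m)⁻¹) ?_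
      (by rw [hcl]; exact hz)
    intro z hz
    rw [hfr] at hz
    rw [norm_inv]
    exact inv_anti₀ (by positivity) (hκ'm z hz)
  intro z hz
  have h1 := hinv z hz
  rw [norm_inv, inv_le_inv₀ (norm_pos_iff.2 (hκ'0 z hz)) (by positivity)] at h1
  have h2 := hκκ z hz
  have h3 : ‖κ' z‖ ≤ ‖κ z‖ + ‖κ' z - κ z‖ := by
    have := norm_add_le (κ z) (κ' z - κ z)
    rwa [add_sub_cancel] at this
  linarith

end

end Pool.Agent.H56.PR
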